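import Pool.Agent.Helper42.RD.Goals1

/-! Packet RD-VAL: a datum gives a local system (all primes `p`). The general lemmas of the first part
follow the file Helper49/RS/VAL.lean. -/

namespace Pool.Agent.Helper32.RDV

open NumberField Polynomial Module IsDedekindDomain Pool.Agent.Helper51.SigLeo
open Pool.Agent.Helper51.RP Pool.Agent.Helper42.RD WithZero

section grp

/-- an abstract lemma on groups: a subgroup with cyclic quotient of order `p` -/
lemma exists_theta {A : Type} [CommGroup A] (p : ℕ) [hp : Fact p.Prime] (G : Subgroup A) (g : A)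
    (hgp : g ^ p ∈ G) (hg : g ∉ G) (hx : ∀ x : A, ∃ n : ℕ, x / g ^ n ∈ G) :
    ∃ θ : A → ZMod p, (∀ x y, θ (x * y) = θ x + θ y) ∧ (∀ x, θ x = 0 ↔ x ∈ G) ∧
      ∀ c, ∃ x, θ x = c := by
  have key : ∀ n : ℤ, g ^ n ∈ G ↔ (p : ℤ) ∣ n := by
    intro n
    constructor
    · intro hn
      by_contra hnd
      have hcop : IsCoprime (p : ℤ) n :=
        (Nat.prime_iff_prime_int.1 hp.out).coprime_iff_not_dvd.2 hnd
      obtain ⟨a, b, hab⟩ := hcop
      apply hg
      have h1 : g = (g ^ p) ^ a * (g ^ n) ^ b := by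
        rw [← zpow_natCast, ← zpow_mul, ← zpow_mul, ← zpow_add]
        have : (p : ℤ) * a + n * b = 1 := by linarith [hab, mul_comm a (p : ℤ), mul_comm b n]
        rw [this, zpow_one]
      rw [h1]
      exact G.mul_mem (G.zpow_mem hgp a) (G.zpow_mem hn b)
    · rintro ⟨a, rfl⟩
      rw [zpow_mul, zpow_natCast]
      exact G.zpow_mem hgp a
  choose n hn using hx
  have key2 : ∀ (x : A) (m : ℤ), x / g ^ m ∈ G → ((n x : ℕ) : ZMod p) = (m : ZMod p) := by
    intro x m hm
    have h1 : g ^ (m - (n x : ℤ)) ∈ G := by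
      have h2 := G.div_mem (hn x) hm
      have h3 : x / g ^ n x / (x / g ^ m) = g ^ (m - (n x : ℤ)) := by
        rw [div_div_div_cancel_left, zpow_sub, zpow_natCast, div_eq_mul_inv]
      rwa [h3] at h2
    rw [key] at h1
    have h4 := (ZMod.intCast_zmod_eq_zero_iff_dvd (m - (n x : ℤ)) p).2 h1
    push_cast at h4
    rw [sub_eq_zero] at h4
    exact h4.symm
  refine ⟨fun x => (n x : ZMod p), ?_, ?_, ?_⟩
  · intro x y
    have h1 := key2 (x * y) ((n x : ℤ) + n y) ?_
    · simpa using h1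
    · rw [zpow_add, zpow_natCast, zpow_natCast, mul_div_mul_comm]
      exact G.mul_mem (hn x) (hn y)
  · intro x
    constructor
    · intro h
      have h1 : (p : ℤ) ∣ (n x : ℤ) := by
        rw [← ZMod.intCast_zmod_eq_zero_iff_dvd]
        simpa using h
      have h2 := (key (n x)).2 h1
      rw [zpow_natCast] at h2
      have h3 := G.mul_mem (hn x) h2
      rwa [div_mul_cancel] at h3
    · intro h
      have h1 := key2 x 0 (by simpa using h)
      simpa using h1
  · intro c
    refine ⟨g ^ (c.val : ℤ), ?_⟩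
    have h1 := key2 (g ^ (c.val : ℤ)) (c.val : ℤ) (by rw [div_self']; exact G.one_mem)
    show ((n (g ^ (c.val : ℤ)) : ℕ) : ZMod p) = c
    rw [h1]
    have : NeZero p := ⟨hp.out.ne_zero⟩
    simp

end grp

variable {M : Type} [Field M] [NumberField M]

/-- weak approximation -/
lemma weakApprox (S : Finset (HeightOneSpectrum (𝓞 M))) (t : HeightOneSpectrum (𝓞 M) → M)
    (n : ℕ) : ∃ y : M, ∀ w ∈ S, w.valuation M (y - t w) ≤ WithZero.exp (-(n : ℤ)) := by
  classical
  obtain ⟨b, hb⟩ := IsLocalization.exist_integer_multiples_of_finset (nonZeroDivisors (𝓞 M))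
    (S.image t)
  have hz : ∀ w ∈ S, ∃ z : 𝓞 M, algebraMap (𝓞 M) M z = algebraMap (𝓞 M) M b * t w := by
    intro w hw
    obtain ⟨z, hz⟩ := hb (t w) (Finset.mem_image_of_mem _ hw)
    exact ⟨z, by rw [hz, Algebra.smul_def]⟩
  choose! z hz using hz
  have hb0 : algebraMap (𝓞 M) M b ≠ 0 := by
    intro h
    have : (b : 𝓞 M) = 0 := by
      apply FaithfulSMul.algebraMap_injective (𝓞 M) M
      rw [h, map_zero]
    exact nonZeroDivisors.ne_zero b.2 this
  have hm : ∀ w : HeightOneSpectrum (𝓞 M), ∃ m : ℕ,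
      WithZero.exp (-(m : ℤ)) ≤ w.valuation M (algebraMap (𝓞 M) M b) := by
    intro w
    have h1 : w.valuation M (algebraMap (𝓞 M) M b) ≠ 0 := by
      rw [Ne, map_eq_zero]; exact hb0
    refine ⟨(-WithZero.log (w.valuation M (algebraMap (𝓞 M) M b))).toNat, ?_⟩
    rw [← WithZero.le_log_iff_exp_le h1]
    have := Int.self_le_toNat (-WithZero.log (w.valuation M (algebraMap (𝓞 M) M b)))
    omega
  choose m hm using hm
  obtain ⟨y, hy⟩ := IsDedekindDomain.exists_forall_sub_mem_ideal (s := S)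
    (fun w : HeightOneSpectrum (𝓞 M) => w.asIdeal) (fun w => n + m w)
    (fun w _ => w.prime) (fun w _ w' _ hne h => hne (HeightOneSpectrum.ext h))
    (fun w => z w.1)
  refine ⟨algebraMap (𝓞 M) M y / algebraMap (𝓞 M) M b, ?_⟩
  intro w hw
  have h1 : algebraMap (𝓞 M) M y / algebraMap (𝓞 M) M b - t w =
      algebraMap (𝓞 M) M (y - z w) / algebraMap (𝓞 M) M b := by
    rw [map_sub, hz w hw]
    field_simp
  have h2 : w.valuation M (algebraMap (𝓞 M) M (y - z w)) ≤ WithZero.exp (-((n + m w : ℕ) : ℤ)) := by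
    rw [HeightOneSpectrum.valuation_of_algebraMap, HeightOneSpectrum.intValuation_le_pow_iff_mem]
    exact hy w hw
  rw [h1, map_div₀]
  have h3 : w.valuation M (algebraMap (𝓞 M) M b) ≠ 0 := by
    rw [Ne, map_eq_zero]; exact hb0
  rw [div_le_iff₀ (zero_lt_iff.2 h3)]
  refine h2.trans ?_
  have h4 : WithZero.exp (-((n + m w : ℕ) : ℤ)) = WithZero.exp (-(n : ℤ)) *
      WithZero.exp (-(m w : ℤ)) := by
    rw [← WithZero.exp_add]; congr 1; push_cast; ring
  rw [h4]
  exact mul_le_mul_right (hm w) _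

lemma val_of_close (w : HeightOneSpectrum (𝓞 M)) {x y : M}
    (h : w.valuation M (x - y) < w.valuation M y) : w.valuation M x = w.valuation M y := by
  have := (w.valuation M).map_add_eq_of_lt_right h
  rwa [sub_add_cancel] at this

lemma val_one_of_close (w : HeightOneSpectrum (𝓞 M)) {x : M}
    (h : w.valuation M (x - 1) < 1) : w.valuation M x = 1 := by
  have := val_of_close w (x := x) (y := 1) (by rwa [map_one])
  rwa [map_one] at this

lemma ordv_mul (w : HeightOneSpectrum (𝓞 M)) {x y : M} (hx : x ≠ 0) (hy : y ≠ 0) :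
    ordv w (x * y) = ordv w x + ordv w y := by
  unfold ordv
  rw [map_mul, WithZero.log_mul]
  · ring
  · rwa [Ne, map_eq_zero]
  · rwa [Ne, map_eq_zero]

lemma ordv_eq_zero (w : HeightOneSpectrum (𝓞 M)) {x : M} (h : w.valuation M x = 1) :
    ordv w x = 0 := by
  unfold ordv
  rw [h]
  simp

lemma ordv_pow (w : HeightOneSpectrum (𝓞 M)) (x : M) (n : ℕ) :
    ordv w (x ^ n) = n * ordv w x := by
  unfold ordv
  rw [map_pow, WithZero.log_pow]
  simp

lemma ordv_zpow (w : HeightOneSpectrum (𝓞 M)) (x : M) (n : ℤ) :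
    ordv w (x ^ n) = n * ordv w x := by
  unfold ordv
  rw [map_zpow₀, WithZero.log_zpow]
  simp

lemma val_one_of_ordv (w : HeightOneSpectrum (𝓞 M)) {x : M} (hx : x ≠ 0) (h : ordv w x = 0) :
    w.valuation M x = 1 := by
  have h1 : w.valuation M x ≠ 0 := by rwa [Ne, map_eq_zero]
  unfold ordv at h
  rw [← WithZero.exp_log h1]
  rw [neg_eq_zero.1 h]
  exact WithZero.exp_zero

lemma mem_iff_val (w : HeightOneSpectrum (𝓞 M)) (r : 𝓞 M) :
    w.valuation M (r : M) < 1 ↔ r ∈ w.asIdeal := w.valuation_lt_one_iff_mem r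

lemma approx (w : HeightOneSpectrum (𝓞 M)) {x : M} (hx : w.valuation M x ≤ 1) :
    ∃ r : 𝓞 M, w.valuation M ((r : M) - x) < 1 := by
  obtain ⟨r, hr⟩ := w.exists_valuation_sub_lt_of_integer hx 1
  exact ⟨r, by simpa using hr⟩

/-- closeness to one is stable under products -/
lemma close_mul (w : HeightOneSpectrum (𝓞 M)) {x y : M} (hx : w.valuation M (x - 1) < 1)
    (hy : w.valuation M (y - 1) < 1) : w.valuation M (x * y - 1) < 1 := by
  have h1 : x * y - 1 = (x - 1) * (y - 1) + ((x - 1) + (y - 1)) := by ring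
  rw [h1]
  refine (w.valuation M).map_add_lt ?_ ((w.valuation M).map_add_lt hx hy)
  rw [map_mul]
  exact mul_lt_one_of_lt_of_le hx hy.le

lemma close_inv (w : HeightOneSpectrum (𝓞 M)) {x : M} (hx : w.valuation M (x - 1) < 1) :
    w.valuation M (x⁻¹ - 1) < 1 := by
  have h1 := val_one_of_close w hx
  have hx0 : x ≠ 0 := by
    rintro rfl
    simp at h1
  have h2 : x⁻¹ - 1 = -(x - 1) * x⁻¹ := by field_simp; ring
  rw [h2, map_mul, Valuation.map_neg, map_inv₀, h1, inv_one, mul_one]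
  exact hx

/-- the subgroup `G_w`. -/
def GG (p : ℕ) (w : HeightOneSpectrum (𝓞 M)) (α : M) (hα : α ≠ 0) : Subgroup Mˣ where
  carrier := {x | ∃ (e : ℤ) (y : M), w.valuation M ((x : M) * α ^ e * y ^ p - 1) < 1}
  one_mem' := ⟨0, 1, by simp⟩
  mul_mem' := by
    rintro a b ⟨e, y, h⟩ ⟨e', y', h'⟩
    refine ⟨e + e', y * y', ?_⟩
    have h1 := close_mul w h h'
    rw [Units.val_mul, zpow_add₀ hα, mul_pow]
    rwa [show (a : M) * b * (α ^ e * α ^ e') * (y ^ p * y' ^ p) =
      (a : M) * α ^ e * y ^ p * ((b : M) * α ^ e' * y' ^ p) by ring]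
  inv_mem' := by
    rintro a ⟨e, y, h⟩
    refine ⟨-e, y⁻¹, ?_⟩
    have h1 := close_inv w h
    rw [Units.val_inv_eq_inv_val, zpow_neg, inv_pow]
    rwa [mul_inv, mul_inv] at h1

lemma mem_GG (p : ℕ) (w : HeightOneSpectrum (𝓞 M)) (α : M) (hα : α ≠ 0) (x : Mˣ) :
    x ∈ GG p w α hα ↔ ∃ (e : ℤ) (y : M), w.valuation M ((x : M) * α ^ e * y ^ p - 1) < 1 :=
  Iff.rfl

lemma mem_GG_iff (p : ℕ) [hp : Fact p.Prime] (w : HeightOneSpectrum (𝓞 M)) (α : M) (hα : α ≠ 0)
    (x : Mˣ) : x ∈ GG p w α hα ↔ ∃ i : ℕ, LocPow p w ((x : M) * α ^ i) := by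
  rw [mem_GG]
  constructor
  · rintro ⟨e, y, h⟩
    have hp0 : (0 : ℤ) < p := by exact_mod_cast hp.out.pos
    refine ⟨(e % p).toNat, α ^ (e / p) * y, ?_⟩
    have h1 : (α ^ (e % (p : ℤ)).toNat : M) = α ^ (e % (p : ℤ)) := by
      rw [← zpow_natCast, Int.toNat_of_nonneg (Int.emod_nonneg e hp0.ne')]
    have h2 : (x : M) * α ^ (e % (p : ℤ)).toNat * (α ^ (e / p) * y) ^ p =
        (x : M) * α ^ e * y ^ p := by
      rw [h1, mul_pow]
      have h3 : α ^ e = α ^ (e % (p : ℤ)) * (α ^ (e / (p : ℤ))) ^ p := by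
        rw [← zpow_natCast, ← zpow_mul, ← zpow_add₀ hα]
        congr 1
        have := Int.emod_add_mul_ediv e p
        linarith [this, mul_comm (p : ℤ) (e / p)]
      rw [h3]
      ring
    rw [h2]
    exact h
  · rintro ⟨i, y, h⟩
    exact ⟨i, y, by simpa using h⟩

lemma close_mem_GG (p : ℕ) (w : HeightOneSpectrum (𝓞 M)) (α : M) (hα : α ≠ 0) (x : Mˣ)
    (h : w.valuation M ((x : M) - 1) < 1) : x ∈ GG p w α hα :=
  ⟨0, 1, by simpa using h⟩

/-- the tame symbol -/
lemma exists_tame (p : ℕ) [hp : Fact p.Prime] (w : HeightOneSpectrum (𝓞 M)) (α : M) (hα : α ≠ 0)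
    (hord : ordv w α = 1) (hN : p ∣ Ideal.absNorm w.asIdeal - 1) :
    ∃ θ : Mˣ → ZMod p, (∀ x y, θ (x * y) = θ x + θ y) ∧ (∀ x, θ x = 0 ↔ x ∈ GG p w α hα) ∧
      ∀ c, ∃ x, θ x = c := by
  classical
  have hmax : w.asIdeal.IsMaximal := w.isMaximal
  let _ : Field (𝓞 M ⧸ w.asIdeal) := Ideal.Quotient.field w.asIdeal
  have : Finite (𝓞 M ⧸ w.asIdeal) := Ideal.finiteQuotientOfFreeOfNeBot w.asIdeal w.ne_bot
  have hcard : Nat.card (𝓞 M ⧸ w.asIdeal) = Ideal.absNorm w.asIdeal := rfl
  have hcardu : Nat.card (𝓞 M ⧸ w.asIdeal)ˣ = Ideal.absNorm w.asIdeal - 1 := by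
    rw [Nat.card_units, hcard]
  obtain ⟨gu, hgu⟩ := IsCyclic.exists_generator (α := (𝓞 M ⧸ w.asIdeal)ˣ)
  obtain ⟨g, hg⟩ := Ideal.Quotient.mk_surjective (gu : 𝓞 M ⧸ w.asIdeal)
  have hgw : g ∉ w.asIdeal := by
    intro h
    have := Ideal.Quotient.eq_zero_iff_mem.2 h
    rw [hg] at this
    exact gu.ne_zero this
  have hgv : w.valuation M (g : M) = 1 := w.valuation_eq_one_iff_notMem.2 hgw
  have hg0 : (g : M) ≠ 0 := by
    intro h
    rw [h, map_zero] at hgv
    exact zero_ne_one hgv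
  refine exists_theta p (GG p w α hα) (Units.mk0 (g : M) hg0) ?_ ?_ ?_
  · refine ⟨0, (g : M)⁻¹, ?_⟩
    have : ((Units.mk0 (g : M) hg0 ^ p : Mˣ) : M) * α ^ (0 : ℤ) * (g : M)⁻¹ ^ p - 1 = 0 := by
      rw [Units.val_pow_eq_pow_val, Units.val_mk0, zpow_zero, mul_one, inv_pow,
        mul_inv_cancel₀ (pow_ne_zero _ hg0), sub_self]
    rw [this, map_zero]
    exact zero_lt_one
  · rintro ⟨e, y, h⟩
    rw [Units.val_mk0] at h
    have h1 := val_one_of_close w h
    have hy0 : y ≠ 0 := by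
      rintro rfl
      rw [zero_pow hp.out.ne_zero, mul_zero, map_zero] at h1
      exact zero_ne_one h1
    have h2 := ordv_eq_zero w h1
    rw [ordv_mul w (mul_ne_zero hg0 (zpow_ne_zero _ hα)) (pow_ne_zero _ hy0),
      ordv_mul w hg0 (zpow_ne_zero _ hα), ordv_zpow, ordv_pow, hord, ordv_eq_zero w hgv] at h2
    have he : e = -ordv w y * p := by linarith [h2, mul_comm (p : ℤ) (ordv w y)]
    set z : M := α ^ (-ordv w y) * y with hz
    have hz0 : z ≠ 0 := mul_ne_zero (zpow_ne_zero _ hα) hy0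
    have hzv : w.valuation M z = 1 := by
      apply val_one_of_ordv w hz0
      rw [hz, ordv_mul w (zpow_ne_zero _ hα) hy0, ordv_zpow, hord]
      ring
    have hzp : (g : M) * α ^ e * y ^ p = g * z ^ p := by
      rw [hz, mul_pow, he, zpow_mul, zpow_natCast]
      ring
    rw [hzp] at h
    obtain ⟨s, hs⟩ := approx w hzv.le
    have hsv : w.valuation M (s : M) = 1 := by rw [← hzv]; exact val_of_close w (by rwa [hzv])
    -- s / z is close to one
    have h3 : w.valuation M ((s : M) / z - 1) < 1 := by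
      have e1 : (s : M) / z - 1 = ((s : M) - z) / z := by field_simp
      rw [e1, map_div₀, hzv, div_one]
      exact hs
    have h4 : ∀ n : ℕ, w.valuation M (((s : M) / z) ^ n - 1) < 1 := by
      intro n
      induction n with
      | zero => simp
      | succ n ih =>
        rw [pow_succ]
        exact close_mul w ih h3
    have h5 := close_mul w h (h4 p)
    have e2 : (g : M) * z ^ p * ((s : M) / z) ^ p - 1 = ((g * s ^ p - 1 : 𝓞 M) : M) := by
      rw [div_pow]
      push_cast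
      field_simp
    rw [e2, mem_iff_val] at h5
    have h6 := Ideal.Quotient.eq_zero_iff_mem.2 h5
    rw [map_sub, map_mul, map_pow, map_one, sub_eq_zero, hg] at h6
    have hs0 : Ideal.Quotient.mk w.asIdeal s ≠ 0 := by
      intro h
      rw [h, zero_pow hp.out.ne_zero, mul_zero] at h6
      exact zero_ne_one h6
    set su : (𝓞 M ⧸ w.asIdeal)ˣ := Units.mk0 _ hs0 with hsu
    have h7 : gu * su ^ p = 1 := by
      apply Units.ext
      rw [Units.val_mul, Units.val_pow_eq_pow_val, Units.val_one, hsu, Units.val_mk0]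
      exact h6
    -- order of gu
    have h8 : orderOf gu = Nat.card (𝓞 M ⧸ w.asIdeal)ˣ := orderOf_eq_card_of_forall_mem_zpowers hgu
    obtain ⟨q, hq⟩ := hN
    rw [hcardu, hq] at h8
    have h9 : gu ^ q = 1 := by
      have h10 : su ^ (p * q) = 1 := by
        rw [← hq, ← hcardu]
        exact pow_card_eq_one'
      have h11 : (gu * su ^ p) ^ q = 1 := by rw [h7, one_pow]
      rw [mul_pow, ← pow_mul, h10, mul_one] at h11
      exact h11
    have h12 := orderOf_dvd_of_pow_eq_one h9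
    rw [h8] at h12
    have hq0 : 0 < q := by
      rcases Nat.eq_zero_or_pos q with h0 | h0
      · rw [h0, mul_zero] at hq
        have h13 : 0 < Nat.card (𝓞 M ⧸ w.asIdeal)ˣ := Nat.card_pos
        rw [hcardu, hq] at h13
        exact absurd h13 (lt_irrefl _)
      · exact h0
    have h14 := Nat.le_of_dvd hq0 h12
    have h15 := hp.out.two_le
    nlinarith
  · intro x
    set e := ordv w (x : M) with he
    have hx0 : (x : M) ≠ 0 := x.ne_zero
    have hxv : w.valuation M ((x : M) * α ^ (-e)) = 1 := by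
      apply val_one_of_ordv w (mul_ne_zero hx0 (zpow_ne_zero _ hα))
      rw [ordv_mul w hx0 (zpow_ne_zero _ hα), ordv_zpow, hord, ← he]
      ring
    obtain ⟨r, hr⟩ := approx w hxv.le
    have hrv : w.valuation M (r : M) = 1 := by rw [← hxv]; exact val_of_close w (by rwa [hxv])
    have hrw : r ∉ w.asIdeal := by
      rw [← mem_iff_val, hrv]
      exact lt_irrefl _
    have hr0 : Ideal.Quotient.mk w.asIdeal r ≠ 0 := by
      intro h
      exact hrw (Ideal.Quotient.eq_zero_iff_mem.1 h)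
    obtain ⟨n, hn⟩ := (isOfFinOrder_of_finite gu).mem_powers_iff_mem_zpowers.2
      (hgu (Units.mk0 _ hr0))
    refine ⟨n, -e, 1, ?_⟩
    have h1 : Ideal.Quotient.mk w.asIdeal (g ^ n - r) = 0 := by
      rw [map_sub, map_pow, hg, sub_eq_zero]
      have := congrArg (fun z : (𝓞 M ⧸ w.asIdeal)ˣ => (z : 𝓞 M ⧸ w.asIdeal)) hn
      simpa using this
    rw [Ideal.Quotient.eq_zero_iff_mem, ← mem_iff_val] at h1
    have h2 : ((x / Units.mk0 (g : M) hg0 ^ n : Mˣ) : M) * α ^ (-e) * 1 ^ p - 1 =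
        -((((g ^ n - r : 𝓞 M)) : M) + ((r : M) - (x : M) * α ^ (-e))) / (g : M) ^ n := by
      rw [Units.val_div_eq_div_val, Units.val_pow_eq_pow_val, Units.val_mk0, one_pow, mul_one]
      push_cast
      field_simp
      ring
    rw [h2, map_div₀, Valuation.map_neg, map_pow, hgv, one_pow, div_one]
    exact (w.valuation M).map_add_lt h1 hr

section norm

variable {p : ℕ} [hp : Fact p.Prime] {k : Type} [NormedField k] [NormedAlgebra ℚ_[p] k]
  [IsUltrametricDist k]

omit [IsUltrametricDist k] in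
lemma norm_p' : ‖(p : k)‖ = 1 / p := by
  have h : (p : k) = algebraMap ℚ_[p] k p := by rw [map_natCast]
  rw [h, norm_algebraMap', Padic.norm_p]
  rw [one_div]

omit [NormedAlgebra ℚ_[p] k] [NumberField M] in
lemma norm_int_le (τ : M →+* k) (b : 𝓞 M) : ‖τ (b : M)‖ ≤ 1 := by
  have h1 : IsIntegral ℤ (τ (b : M)) := (b.2 : IsIntegral ℤ (b : M)).map τ.toIntAlgHom
  have h2 : IsIntegral (NormedField.valuation (K := k)).integer (τ (b : M)) := h1.tower_top
  have h3 := (Valuation.integer.integers (NormedField.valuation (K := k))).isIntegral_iff_v_le_one.1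
    h2
  rw [NormedField.valuation_apply] at h3
  exact_mod_cast h3

/-- the prime of an embedding -/
def PI (τ : M →+* k) : Ideal (𝓞 M) where
  carrier := {b | ‖τ (b : M)‖ < 1}
  add_mem' := by
    intro a b ha hb
    simp only [Set.mem_ofPred_eq] at ha hb ⊢
    have e : ((a + b : 𝓞 M) : M) = (a : M) + b := by push_cast; rfl
    rw [e, map_add]
    exact lt_of_le_of_lt (IsUltrametricDist.norm_add_le_max _ _) (max_lt ha hb)
  zero_mem' := by simp
  smul_mem' := by
    intro c b hb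
    simp only [Set.mem_ofPred_eq] at hb ⊢
    have e : ((c • b : 𝓞 M) : M) = (c : M) * b := by rw [smul_eq_mul]; push_cast; rfl
    rw [e, map_mul, norm_mul]
    have := norm_int_le τ c
    nlinarith [norm_nonneg (τ (c : M)), norm_nonneg (τ (b : M))]

omit [NumberField M] in
lemma mem_PI (τ : M →+* k) (b : 𝓞 M) : b ∈ PI τ ↔ ‖τ (b : M)‖ < 1 := Iff.rfl

omit [NumberField M] in
include hp in
lemma p_mem_PI (τ : M →+* k) : ((p : ℕ) : 𝓞 M) ∈ PI τ := by
  rw [mem_PI]
  have e : (((p : ℕ) : 𝓞 M) : M) = (p : M) := map_natCast (algebraMap (𝓞 M) M) p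
  rw [e, map_natCast, norm_p' (p := p)]
  have h2 : (1 : ℝ) < p := by exact_mod_cast hp.out.one_lt
  rw [div_lt_one (by linarith)]
  exact h2

/-- the prime of an embedding -/
def wt (p : ℕ) [hp : Fact p.Prime] [NormedAlgebra ℚ_[p] k] (τ : M →+* k) :
    HeightOneSpectrum (𝓞 M) where
  asIdeal := PI τ
  isPrime := by
    constructor
    · rw [Ideal.ne_top_iff_one, mem_PI]
      simp
    · intro a b hab
      by_contra hcon
      push Not at hcon
      rw [mem_PI] at hab
      rw [mem_PI, mem_PI] at hcon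
      have h1 : ‖τ (a : M)‖ = 1 := le_antisymm (norm_int_le τ a) (not_lt.1 hcon.1)
      have h2 : ‖τ (b : M)‖ = 1 := le_antisymm (norm_int_le τ b) (not_lt.1 hcon.2)
      have e : ((a * b : 𝓞 M) : M) = (a : M) * b := by push_cast; rfl
      rw [e, map_mul, norm_mul, h1, h2] at hab
      norm_num at hab
  ne_bot := by
    intro h
    have h2 : ((p : ℕ) : 𝓞 M) ∈ PI τ := p_mem_PI τ
    rw [h, Ideal.mem_bot] at h2
    exact (Nat.cast_ne_zero.2 hp.out.ne_zero) h2

lemma wt_p (τ : M →+* k) : (wt p τ).valuation M (p : M) < 1 := by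
  have h2 : ((p : ℕ) : 𝓞 M) ∈ (wt p τ).asIdeal := p_mem_PI τ
  rw [← mem_iff_val] at h2
  have e : (((p : ℕ) : 𝓞 M) : M) = (p : M) := map_natCast (algebraMap (𝓞 M) M) p
  rwa [e] at h2

lemma norm_one_of_notMem (τ : M →+* k) (d : (wt p τ).asIdeal.primeCompl) :
    ‖τ ((d : 𝓞 M) : M)‖ = 1 := by
  have h : (d : 𝓞 M) ∉ PI τ := d.2
  rw [mem_PI] at h
  exact le_antisymm (norm_int_le τ _) (not_lt.1 h)

lemma norm_le_one_of_val (τ : M →+* k) {b : M} (hb : (wt p τ).valuation M b ≤ 1) :
    ‖τ b‖ ≤ 1 := by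
  obtain ⟨n, d, h⟩ := (wt p τ).exists_primeCompl_mul_eq_of_integer b hb
  have h1 : ‖τ b‖ * ‖τ ((d : 𝓞 M) : M)‖ = ‖τ (n : M)‖ := by
    rw [← norm_mul, ← map_mul]
    exact congrArg (fun z => ‖τ z‖) h
  rw [norm_one_of_notMem, mul_one] at h1
  rw [h1]
  exact norm_int_le τ n

lemma norm_small_of_val (τ : M →+* k) {b : M}
    (hb : (wt p τ).valuation M b ≤ (wt p τ).valuation M ((p : M) ^ 3)) :
    ‖τ b‖ ≤ (1 / p : ℝ) ^ 3 := by
  have hp0 : (p : M) ≠ 0 := Nat.cast_ne_zero.2 hp.out.ne_zero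
  have h1 : (wt p τ).valuation M (b / (p : M) ^ 3) ≤ 1 := by
    rw [map_div₀]
    refine div_le_one_of_le₀ hb zero_le
  have h2 := norm_le_one_of_val τ h1
  have hpp : (0 : ℝ) < 1 / p := by
    have := hp.out.pos
    positivity
  rw [map_div₀, map_pow, map_natCast, norm_div, norm_pow, norm_p' (p := p)] at h2
  rw [div_le_iff₀ (by positivity)] at h2
  linarith

lemma val_of_norm (τ : M →+* k) {x : M} (hx : ‖τ x‖ = 1) : (wt p τ).valuation M x = 1 := by
  have hd : ∀ d : (wt p τ).asIdeal.primeCompl, (wt p τ).valuation M ((d : 𝓞 M) : M) = 1 := by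
    intro d
    exact (wt p τ).valuation_eq_one_iff_notMem.2 d.2
  have hn : ∀ n : 𝓞 M, ‖τ (n : M)‖ = 1 → (wt p τ).valuation M (n : M) = 1 := by
    intro n hn
    refine (wt p τ).valuation_eq_one_iff_notMem.2 ?_
    show n ∉ PI τ
    rw [mem_PI, hn]
    norm_num
  obtain ⟨n, d, h | h⟩ := (wt p τ).exists_primeCompl_mul_eq_or_mul_eq x
  · have h1 : ‖τ x‖ * ‖τ ((d : 𝓞 M) : M)‖ = ‖τ (n : M)‖ := by
      rw [← norm_mul, ← map_mul]
      exact congrArg (fun z => ‖τ z‖) h
    rw [norm_one_of_notMem, mul_one, hx] at h1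
    have h2 : (wt p τ).valuation M x * (wt p τ).valuation M ((d : 𝓞 M) : M) =
        (wt p τ).valuation M (n : M) := by
      rw [← map_mul]
      exact congrArg _ h
    rw [hd, mul_one, hn n h1.symm] at h2
    exact h2
  · have h1 : ‖τ x‖ * ‖τ (n : M)‖ = ‖τ ((d : 𝓞 M) : M)‖ := by
      rw [← norm_mul, ← map_mul]
      exact congrArg (fun z => ‖τ z‖) h
    rw [norm_one_of_notMem, hx, one_mul] at h1
    have h2 : (wt p τ).valuation M x * (wt p τ).valuation M (n : M) =
        (wt p τ).valuation M ((d : 𝓞 M) : M) := by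
      rw [← map_mul]
      exact congrArg _ h
    rw [hd, hn n h1, mul_one] at h2
    exact h2

end norm

lemma weakApproxUnits (S : Finset (HeightOneSpectrum (𝓞 M)))
    (t : HeightOneSpectrum (𝓞 M) → Mˣ) (γ : HeightOneSpectrum (𝓞 M) → WithZero (Multiplicative ℤ))
    (hγ : ∀ w, γ w ≠ 0) : ∃ y : Mˣ, ∀ w ∈ S,
      w.valuation M ((y : M) - t w) ≤ γ w ∧
      w.valuation M ((y : M) - t w) < w.valuation M (t w : M) := by
  rcases S.eq_empty_or_nonempty with hS | hS
  · exact ⟨1, by simp [hS]⟩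
  have hn : ∀ w : HeightOneSpectrum (𝓞 M), ∃ n : ℕ, WithZero.exp (-(n : ℤ)) < γ w ∧
      WithZero.exp (-(n : ℤ)) < w.valuation M (t w : M) := by
    intro w
    have h1 : w.valuation M (t w : M) ≠ 0 := by
      rw [Ne, map_eq_zero]; exact (t w).ne_zero
    exact WithZero.exists_exp_neg_natCast_lt_and_lt (hγ w) h1
  choose n hn using hn
  obtain ⟨y, hy⟩ := weakApprox S (fun w => (t w : M)) (S.sup n)
  have hy2 : ∀ w ∈ S, w.valuation M (y - t w) ≤ WithZero.exp (-(n w : ℤ)) := by
    intro w hw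
    refine (hy w hw).trans ?_
    rw [WithZero.exp_le_exp]
    have : n w ≤ S.sup n := Finset.le_sup hw
    omega
  have hy0 : y ≠ 0 := by
    obtain ⟨w, hw⟩ := hS
    intro h0
    have h1 := (hy2 w hw).trans_lt (hn w).2
    have h2 := val_of_close w h1
    rw [h0, map_zero] at h2
    exact (t w).ne_zero ((map_eq_zero (w.valuation M)).1 h2.symm)
  refine ⟨Units.mk0 y hy0, ?_⟩
  intro w hw
  exact ⟨(hy2 w hw).trans (hn w).1.le, (hy2 w hw).trans_lt (hn w).2⟩

section conj

variable {K : Type} [Field K] [Algebra K M]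

omit [NumberField M] in
lemma conj_refl [NumberField M] (w : HeightOneSpectrum (𝓞 M)) : ConjP K w w := ⟨1, fun _ => rfl⟩

lemma conj_symm {w v : HeightOneSpectrum (𝓞 M)} (h : ConjP K w v) : ConjP K v w := by
  obtain ⟨g, hg⟩ := h
  refine ⟨g.symm, fun y => ?_⟩
  rw [← hg, AlgEquiv.apply_symm_apply]

lemma conj_trans {w v u : HeightOneSpectrum (𝓞 M)} (h : ConjP K w v) (h' : ConjP K v u) :
    ConjP K w u := by
  obtain ⟨g, hg⟩ := h
  obtain ⟨g', hg'⟩ := h'
  refine ⟨g * g', fun y => ?_⟩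
  show w.valuation M (g (g' y)) = _
  rw [hg, hg']

/-- representatives of the conjugacy classes -/
lemma exists_rep : ∃ rep : HeightOneSpectrum (𝓞 M) → HeightOneSpectrum (𝓞 M),
    (∀ w, ConjP K w (rep w)) ∧ ∀ w w', ConjP K w w' → rep w = rep w' := by
  classical
  let s : Setoid (HeightOneSpectrum (𝓞 M)) :=
    ⟨ConjP K, ⟨conj_refl, conj_symm, conj_trans⟩⟩
  refine ⟨fun w => (Quotient.mk s w).out, fun w => ?_, fun w w' h => ?_⟩
  · have h1 : s (Quotient.mk s w).out w := Quotient.exact (Quotient.out_eq (Quotient.mk s w))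
    exact conj_symm h1
  · have h1 : Quotient.mk s w = Quotient.mk s w' := Quotient.sound h
    show (Quotient.mk s w).out = (Quotient.mk s w').out
    rw [h1]

end conj

/-- **D_VAL** -/
theorem _root_.Pool.Agent.Helper32.RD.d_val : Pool.Agent.Helper42.RD.D_VAL := by
  intro p hp k _ _ _ K M _ _ _ _ _ δ T R al hD S hSfin hSst hSp hRS
  classical
  obtain ⟨rep, hrep, hrepeq⟩ := exists_rep (K := K) (M := M)
  choose γ hγ using hrep
  have hrepR : ∀ w ∈ R, rep w ∈ R := by
    intro w hw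
    exact hD.stable w hw _ (conj_symm ⟨γ w, hγ w⟩)
  have halne : ∀ w ∈ R, algebraMap K M (al w) ≠ 0 := by
    intro w hw h0
    have h1 := hD.unif w hw
    rw [h0] at h1
    unfold ordv at h1
    simp at h1
  -- the characters
  have hθ : ∀ w : HeightOneSpectrum (𝓞 M), ∃ θ : Mˣ → ZMod p, ∀ hw : w ∈ R,
      (∀ x y, θ (x * y) = θ x + θ y) ∧
      (∀ x, θ x = 0 ↔ x ∈ GG p w (algebraMap K M (al w)) (halne w hw)) ∧
      ∀ c, ∃ x, θ x = c := by
    intro w
    by_cases hw : w ∈ R
    · obtain ⟨θ, h⟩ := exists_tame p w (algebraMap K M (al w)) (halne w hw) (hD.unif w hw)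
        (hD.norm w hw)
      exact ⟨θ, fun _ => h⟩
    · exact ⟨0, fun h => absurd h hw⟩
  choose θ hθ using hθ
  -- action on units
  let act : (M ≃ₐ[K] M) → Mˣ → Mˣ := fun g x => Units.map ((g : M →+* M) : M →* M) x
  have act_val : ∀ g x, ((act g x : Mˣ) : M) = g (x : M) := fun g x => rfl
  have act_mul : ∀ g x y, act g (x * y) = act g x * act g y := fun g x y => map_mul _ _ _
  let v : Mˣ → HeightOneSpectrum (𝓞 M) → ZMod p := fun x w =>
    if w ∈ R then θ (rep w) (act (γ w).symm x) else ((ordv w (x : M) : ℤ) : ZMod p)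
  have hvR : ∀ x w, w ∈ R → v x w = θ (rep w) (act (γ w).symm x) := by
    intro x w hw
    show (if w ∈ R then _ else _) = _
    rw [if_pos hw]
  have hvN : ∀ x w, w ∉ R → v x w = ((ordv w (x : M) : ℤ) : ZMod p) := by
    intro x w hw
    show (if w ∈ R then _ else _) = _
    rw [if_neg hw]
  have vadd : ∀ x y w, v (x * y) w = v x w + v y w := by
    intro x y w
    by_cases hw : w ∈ R
    · rw [hvR _ w hw, hvR _ w hw, hvR _ w hw, act_mul, (hθ _ (hrepR w hw)).1]
    · rw [hvN _ w hw, hvN _ w hw, hvN _ w hw, Units.val_mul, ordv_mul w x.ne_zero y.ne_zero]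
      push_cast
      rfl
  have v0 : ∀ x w, (v x w = 0 ↔ LocD p R al w (x : M)) := by
    intro x w
    unfold LocD
    by_cases hw : w ∈ R
    · rw [hvR _ w hw, (hθ _ (hrepR w hw)).2.1, mem_GG]
      have hconst : al (rep w) = al w :=
        hD.const w hw _ (conj_symm ⟨γ w, hγ w⟩)
      have h1 : (∃ i : ℕ, LocPow p w ((x : M) * algebraMap K M (al w) ^ i)) ↔
          ∃ (e : ℤ) (y : M), w.valuation M ((x : M) * (algebraMap K M (al w)) ^ e * y ^ p - 1) < 1 := by
        rw [← mem_GG_iff p w _ (halne w hw), mem_GG]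
      constructor
      · rintro ⟨e, y, h⟩
        refine ⟨fun h => absurd hw h, fun _ => h1.2 ⟨e, γ w y, ?_⟩⟩
        rw [← hγ w, hconst, act_val] at h
        have e1 : γ w ((γ w).symm (x : M) * algebraMap K M (al w) ^ e * y ^ p - 1) =
            (x : M) * algebraMap K M (al w) ^ e * (γ w y) ^ p - 1 := by
          rw [map_sub, map_mul, map_mul, map_pow, map_zpow₀, AlgEquiv.commutes,
            AlgEquiv.apply_symm_apply, map_one]
        rwa [e1] at h
      · rintro ⟨-, h⟩
        obtain ⟨e, y, h⟩ := h1.1 (h hw)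
        refine ⟨e, (γ w).symm y, ?_⟩
        rw [← hγ w, hconst, act_val]
        have e1 : γ w ((γ w).symm (x : M) * algebraMap K M (al w) ^ e * ((γ w).symm y) ^ p - 1) =
            (x : M) * algebraMap K M (al w) ^ e * y ^ p - 1 := by
          rw [map_sub, map_mul, map_mul, map_pow, map_zpow₀, AlgEquiv.commutes,
            AlgEquiv.apply_symm_apply, AlgEquiv.apply_symm_apply, map_one]
        rwa [e1]
    · rw [hvN _ w hw, ZMod.intCast_zmod_eq_zero_iff_dvd]
      exact ⟨fun h => ⟨fun _ => h, fun h' => absurd h' hw⟩, fun h => h.1 hw⟩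
  have vclose : ∀ (x : Mˣ) w, w.valuation M ((x : M) - 1) < 1 → v x w = 0 := by
    intro x w h
    rw [v0]
    refine ⟨fun _ => ?_, fun _ => ⟨0, 1, ?_⟩⟩
    · rw [ordv_eq_zero w (val_one_of_close w h)]
      exact dvd_zero _
    · simpa using h
  have vloc : ∀ (x y : Mˣ) w, w.valuation M ((x : M) - y) < w.valuation M (y : M) →
      v x w = v y w := by
    intro x y w h
    have hy0 : (y : M) ≠ 0 := y.ne_zero
    have hyv : w.valuation M (y : M) ≠ 0 := by rwa [Ne, map_eq_zero]
    have h1 : w.valuation M (((x / y : Mˣ) : M) - 1) < 1 := by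
      have e : ((x / y : Mˣ) : M) - 1 = ((x : M) - y) / y := by
        rw [Units.val_div_eq_div_val]; field_simp
      rw [e, map_div₀, div_lt_iff₀ (zero_lt_iff.2 hyv), one_mul]
      exact h
    have h3 := vadd (x / y) y w
    rw [div_mul_cancel, vclose _ w h1, zero_add] at h3
    exact h3
  have vone : ∀ w, v 1 w = 0 := by
    intro w
    exact vclose 1 w (by simp)
  refine ⟨∏ w ∈ hSfin.toFinset, w.asIdeal, v, ?_, fun x w _ => v0 x w⟩
  refine ⟨hSfin, hSst, fun w hw => hSp w hw, fun x y w _ => vadd x y w, ?_, ?_, ?_, ?_, ?_, ?_⟩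
  · -- equivariance
    intro x w hw w' hww'
    have hconj : ConjP K w w' := ⟨δ, hww'⟩
    by_cases hwR : w ∈ R
    · have hwR' : w' ∈ R := hD.stable w hwR _ (conj_symm hconj)
      rw [hvR _ w hwR, hvR _ w' hwR', hrepeq w w' hconj]
      congr 1
      apply Units.ext
      rw [act_val, act_val]
      show (γ w).symm (δ (x : M)) = (γ w').symm (x : M)
      have hr : rep w = rep w' := hrepeq w w' hconj
      -- γ(w)⁻¹ δ γ(w') = 1
      have h1 : ∀ y : M, (rep w).valuation M (((γ w)⁻¹ * δ * γ w') y) = (rep w).valuation M y := by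
        intro y
        rw [← hγ w]
        have e1 : γ w (((γ w)⁻¹ * δ * γ w') y) = δ (γ w' y) := by
          show γ w ((γ w).symm (δ (γ w' y))) = _
          rw [AlgEquiv.apply_symm_apply]
        rw [e1, hww', hγ w', hr]
      have h2 := hD.free (rep w) (hrepR w hwR) _ h1
      have h3 : δ * γ w' = γ w := by
        have := congrArg (fun z => γ w * z) h2
        simp only [mul_one] at this
        rw [← this]
        group
      have h4 : ∀ z : M, (γ w).symm (δ z) = (γ w').symm z := by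
        intro z
        rw [AlgEquiv.symm_apply_eq, ← h3]
        show δ z = δ (γ w' ((γ w').symm z))
        rw [AlgEquiv.apply_symm_apply]
      exact h4 _
    · have hwR' : w' ∉ R := fun h => hwR (hD.stable w' h _ hconj)
      rw [hvN _ w hwR, hvN _ w' hwR']
      congr 1
      show ordv w (δ (x : M)) = ordv w' (x : M)
      unfold ordv
      rw [hww']
  · -- surj
    intro c
    have ht : ∀ w : HeightOneSpectrum (𝓞 M), ∃ t : Mˣ, v t w = c w := by
      intro w
      by_cases hw : w ∈ R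
      · obtain ⟨x, hx⟩ := (hθ _ (hrepR w hw)).2.2 (c w)
        refine ⟨act (γ w) x, ?_⟩
        rw [hvR _ w hw, ← hx]
        congr 1
        apply Units.ext
        rw [act_val, act_val, AlgEquiv.symm_apply_apply]
      · obtain ⟨π, hπ⟩ := w.valuation_exists_uniformizer M
        have hπ0 : π ≠ 0 := by
          rintro rfl
          rw [map_zero] at hπ
          exact WithZero.exp_ne_zero hπ.symm
        have h1 : ordv w π = 1 := by
          unfold ordv
          rw [hπ]
          simp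
        refine ⟨Units.mk0 π hπ0 ^ (c w).val, ?_⟩
        rw [hvN _ w hw, Units.val_pow_eq_pow_val, Units.val_mk0, ordv_pow, h1]
        have : NeZero p := ⟨hp.out.ne_zero⟩
        simp
    choose t ht using ht
    obtain ⟨y, hy⟩ := weakApproxUnits hSfin.toFinset t (fun _ => 1) (fun _ => one_ne_zero)
    refine ⟨y, ?_⟩
    intro w hw
    rw [← ht w]
    exact vloc y (t w) w (hy w (hSfin.mem_toFinset.2 hw)).2
  · -- approximation
    intro x hx
    set W : Set (HeightOneSpectrum (𝓞 M)) := {w | ∃ τ ∈ (above T : Set (M →+* k)), wt p τ = w}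
      with hW
    have hp0 : (p : M) ≠ 0 := Nat.cast_ne_zero.2 hp.out.ne_zero
    obtain ⟨y, hy⟩ := weakApproxUnits hSfin.toFinset (fun w => if w ∈ W then x else 1)
      (fun w => w.valuation M ((p : M) ^ 3))
      (fun w => by rw [Ne, map_eq_zero]; exact pow_ne_zero _ hp0)
    refine ⟨y, ?_, ?_⟩
    · intro w hw
      have h1 := (hy w (hSfin.mem_toFinset.2 hw)).2
      rw [vloc y _ w h1]
      by_cases hwW : w ∈ W
      · rw [if_pos hwW]
        obtain ⟨τ, hτ, rfl⟩ := hwW
        have hnR : wt p τ ∉ R := by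
          intro h
          have h2 := wt_p (p := p) τ
          rw [hD.copr _ h] at h2
          exact lt_irrefl _ h2
        rw [hvN _ _ hnR, ordv_eq_zero _ (val_of_norm τ (hx τ hτ))]
        simp
      · rw [if_neg hwW]
        exact vone w
    · intro τ hτ
      have hwS : wt p τ ∈ S := hSp _ (wt_p τ)
      have h1 := (hy (wt p τ) (hSfin.mem_toFinset.2 hwS)).1
      have hwW : wt p τ ∈ W := ⟨τ, hτ, rfl⟩
      rw [if_pos hwW] at h1
      have h2 := norm_small_of_val τ h1
      have h3 : τ ((y / x : Mˣ) : M) - 1 = τ ((y : M) - x) / τ (x : M) := by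
        have hx0 : τ (x : M) ≠ 0 := by rw [Ne, map_eq_zero]; exact x.ne_zero
        rw [Units.val_div_eq_div_val, map_div₀, map_sub]
        field_simp
      rw [h3, norm_div, hx τ hτ, div_one]
      exact h2
  · -- ne
    rw [Ne, ← Ideal.zero_eq_bot, Finset.prod_eq_zero_iff]
    rintro ⟨w, -, hw⟩
    exact w.ne_bot hw
  · -- supp
    intro w hw
    by_contra hwS
    apply hw
    apply Ideal.sup_prod_eq_top
    intro w' hw'
    have hne : w.asIdeal ≠ w'.asIdeal := by
      intro h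
      apply hwS
      rw [HeightOneSpectrum.ext h]
      exact hSfin.mem_toFinset.1 hw'
    exact w.isMaximal.coprime_of_ne w'.isMaximal hne
  · -- ray
    intro α x hx hα w hw
    apply vclose
    have h1 : α - 1 ∈ w.asIdeal := by
      have h2 : ∏ w ∈ hSfin.toFinset, w.asIdeal ≤ w.asIdeal :=
        Ideal.prod_le_inf.trans (Finset.inf_le (hSfin.mem_toFinset.2 hw))
      exact h2 hα
    rw [← mem_iff_val] at h1
    rw [hx]
    have e : ((α - 1 : 𝓞 M) : M) = (α : M) - 1 := by push_cast; rfl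
    rwa [e] at h1

end Pool.Agent.Helper32.RDV
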