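import Pool.Agent.Helper42.RD.Goals2

/-! Packet RE-KUM: Kummer descent. -/

namespace Pool.Agent.Helper32.REK

open Polynomial Module Pool.Agent.Helper51.RP Pool.Agent.Helper42.RD IntermediateField

/-- **E_KUM** -/
theorem _root_.Pool.Agent.Helper32.RD.e_kum : Pool.Agent.Helper42.RD.E_KUM := by
  intro p hp K _ _ ε hε
  set K₁ : IntermediateField K (AlgebraicClosure K) := adjoin K {ε} with hK₁
  intro ε₁ a hε₁ hom hna
  classical
  have hp0 : p ≠ 0 := hp.out.ne_zero
  have : NeZero p := ⟨hp0⟩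
  have hεK₁ : ε ∈ K₁ := mem_adjoin_simple_self K ε
  have hε0 : ε ≠ 0 := hε.ne_zero hp0
  obtain ⟨s₀, hs₀⟩ := IsAlgClosed.exists_pow_nat_eq (a : AlgebraicClosure K) hp.out.pos
  have ha0 : (a : AlgebraicClosure K) ≠ 0 := by
    intro h
    apply hna
    refine ⟨0, ?_⟩
    rw [zero_pow hp0]
    exact (Subtype.ext (by rw [h]; rfl))
  have hs₀0 : s₀ ≠ 0 := by
    rintro rfl
    rw [zero_pow hp0] at hs₀
    exact ha0 hs₀.symm
  have hsK : s₀ ∉ K₁ := by
    intro h
    apply hna
    exact ⟨⟨s₀, h⟩, Subtype.ext (by simpa using hs₀)⟩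
  -- the action on ε
  have heps : ∀ σ : AlgebraicClosure K ≃ₐ[K] AlgebraicClosure K, ∃ n : ℕ, σ ε = ε ^ n := by
    intro σ
    have h1 : (σ ε) ^ p = 1 := by rw [← map_pow, hε.pow_eq_one, map_one]
    obtain ⟨n, -, hn⟩ := hε.eq_pow_of_pow_eq_one h1
    exact ⟨n, hn.symm⟩
  have hK₁n : Normal K K₁ := by
    rw [normal_iff_forall_map_le']
    intro σ
    rw [hK₁, adjoin_map, adjoin_le_iff]
    rintro x ⟨y, hy, rfl⟩
    rw [Set.mem_singleton_iff.1 hy]
    obtain ⟨n, hn⟩ := heps σ
    show σ ε ∈ K₁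
    rw [hn]
    exact pow_mem hεK₁ n
  -- the action on s₀
  have hact : ∀ σ : AlgebraicClosure K ≃ₐ[K] AlgebraicClosure K, ∃ (n i : ℕ) (c : AlgebraicClosure K), c ∈ K₁ ∧ σ ε = ε ^ n ∧
      σ s₀ = ε ^ i * s₀ ^ n * c := by
    intro σ
    obtain ⟨n, c, h1, h2⟩ := hom (σ.restrictNormal K₁)
    have h1' : σ ε = ε ^ n := by
      have h3 := congrArg (fun z : K₁ => (z : AlgebraicClosure K)) h1
      have h4 := AlgEquiv.restrictNormal_commutes σ K₁ ε₁
      have h5 : ((σ.restrictNormal K₁ ε₁ : K₁) : AlgebraicClosure K) = σ (ε₁ : AlgebraicClosure K) := h4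
      beta_reduce at h3
      rw [h5, hε₁] at h3
      rw [h3]
      push_cast
      rw [hε₁]
    have h2' : σ (a : AlgebraicClosure K) = (a : AlgebraicClosure K) ^ n * (c : AlgebraicClosure K) ^ p := by
      have h3 := congrArg (fun z : K₁ => (z : AlgebraicClosure K)) h2
      have h4 := AlgEquiv.restrictNormal_commutes σ K₁ a
      have h5 : ((σ.restrictNormal K₁ a : K₁) : AlgebraicClosure K) = σ (a : AlgebraicClosure K) := h4
      beta_reduce at h3
      rw [h5] at h3
      rw [h3]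
      push_cast
      rfl
    have hc0 : (c : AlgebraicClosure K) ≠ 0 := by
      intro h
      rw [h, zero_pow hp0, mul_zero, map_eq_zero] at h2'
      exact ha0 h2'
    have h6 : (σ s₀ / (s₀ ^ n * c)) ^ p = 1 := by
      rw [div_pow, ← map_pow, hs₀, h2', mul_pow, ← pow_mul, mul_comm n p, pow_mul, hs₀]
      exact div_self (mul_ne_zero (pow_ne_zero _ ha0) (pow_ne_zero _ hc0))
    obtain ⟨i, -, hi⟩ := hε.eq_pow_of_pow_eq_one h6
    refine ⟨n, i, c, c.2, h1', ?_⟩
    rw [mul_assoc, hi]
    field_simp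
  -- elements fixing ε
  have hfixK : ∀ σ : AlgebraicClosure K ≃ₐ[K] AlgebraicClosure K, σ ε = ε → ∀ x ∈ K₁, σ x = x := by
    intro σ hσ x hx
    have h1 : σ ∈ K₁.fixingSubgroup := by
      rw [← Subgroup.zpowers_le, ← IntermediateField.le_iff_le, hK₁, adjoin_le_iff]
      intro y hy
      rw [Set.mem_singleton_iff.1 hy]
      intro g
      obtain ⟨g, hg⟩ := g
      have h2 : Subgroup.zpowers σ ≤ MulAction.stabilizer (AlgebraicClosure K ≃ₐ[K] AlgebraicClosure K) ε := by
        rw [Subgroup.zpowers_le]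
        exact hσ
      exact h2 hg
    exact (IntermediateField.mem_fixingSubgroup_iff K₁ σ).1 h1 x hx
  have hfixs : ∀ σ : AlgebraicClosure K ≃ₐ[K] AlgebraicClosure K, σ ε = ε → ∃ j : ℕ, σ s₀ = ε ^ j * s₀ := by
    intro σ hσ
    have h6 : (σ s₀ / s₀) ^ p = 1 := by
      rw [div_pow, ← map_pow, hs₀, hfixK σ hσ a a.2]
      exact div_self ha0
    obtain ⟨j, -, hj⟩ := hε.eq_pow_of_pow_eq_one h6
    refine ⟨j, ?_⟩
    rw [hj]
    field_simp
  -- the field F
  set F : IntermediateField K (AlgebraicClosure K) := adjoin K {ε, s₀} with hF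
  have hεF : ε ∈ F := subset_adjoin K _ (by simp)
  have hsF : s₀ ∈ F := subset_adjoin K _ (by simp)
  have hK₁F : K₁ ≤ F := by
    rw [hK₁, adjoin_le_iff]
    intro x hx
    rw [Set.mem_singleton_iff.1 hx]
    exact hεF
  have hFn : Normal K F := by
    rw [normal_iff_forall_map_le']
    intro σ
    rw [hF, adjoin_map, adjoin_le_iff]
    obtain ⟨n, i, c, hc, h1, h2⟩ := hact σ
    rintro x ⟨y, hy, rfl⟩
    rcases hy with hy | hy
    · rw [hy]
      show σ ε ∈ F
      rw [h1]
      exact pow_mem hεF n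
    · rw [Set.mem_singleton_iff.1 hy]
      show σ s₀ ∈ F
      rw [h2]
      exact mul_mem (mul_mem (pow_mem hεF i) (pow_mem hsF n)) (hK₁F hc)
  have hFfin : FiniteDimensional K F := by
    have : Finite ({ε, s₀} : Set (AlgebraicClosure K)) := Set.toFinite _
    exact finiteDimensional_adjoin (fun x _ => Algebra.IsIntegral.isIntegral x)
  have hFG : IsGalois K F := { to_isSeparable := inferInstance, to_normal := hFn }
  -- lifting automorphisms
  have hlift : ∀ g : F ≃ₐ[K] F, ∃ σ : AlgebraicClosure K ≃ₐ[K] AlgebraicClosure K, ∀ x : F, σ (x : AlgebraicClosure K) = ((g x : F) : AlgebraicClosure K) := by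
    intro g
    exact ⟨g.liftNormal (AlgebraicClosure K), fun x => g.liftNormal_commutes (AlgebraicClosure K) x⟩
  -- automorphisms of F are determined by the values
  let εF : F := ⟨ε, hεF⟩
  let sF : F := ⟨s₀, hsF⟩
  have hext : ∀ g h : F ≃ₐ[K] F, g εF = h εF → g sF = h sF → g = h := by
    intro g h h1 h2
    obtain ⟨σ, hσ⟩ := hlift g
    obtain ⟨τ, hτ⟩ := hlift h
    have h3 : τ⁻¹ * σ ∈ F.fixingSubgroup := by
      rw [← Subgroup.zpowers_le, ← IntermediateField.le_iff_le, hF, adjoin_le_iff]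
      have h4 : ∀ y : AlgebraicClosure K, σ y = τ y → y ∈ (fixedField (Subgroup.zpowers (τ⁻¹ * σ)) :
          IntermediateField K (AlgebraicClosure K)) := by
        intro y hy g
        obtain ⟨g, hg⟩ := g
        have h2 : Subgroup.zpowers (τ⁻¹ * σ) ≤ MulAction.stabilizer (AlgebraicClosure K ≃ₐ[K] AlgebraicClosure K) y := by
          rw [Subgroup.zpowers_le]
          show τ.symm (σ y) = y
          rw [hy, AlgEquiv.symm_apply_apply]
        exact h2 hg
      rintro y (hy | hy)
      · rw [hy]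
        apply h4
        have e1 := hσ εF
        have e2 := hτ εF
        rw [h1, ← e2] at e1
        exact e1
      · rw [Set.mem_singleton_iff.1 hy]
        apply h4
        have e1 := hσ sF
        have e2 := hτ sF
        rw [h2, ← e2] at e1
        exact e1
    have h5 := (IntermediateField.mem_fixingSubgroup_iff F _).1 h3
    apply AlgEquiv.ext
    intro x
    apply Subtype.ext
    rw [← hσ, ← hτ]
    have h6 : τ.symm (σ (x : AlgebraicClosure K)) = x := h5 x x.2
    rw [AlgEquiv.symm_apply_eq] at h6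
    exact h6
  -- the cyclotomic character
  have hεFp : IsPrimitiveRoot εF p := by
    apply IsPrimitiveRoot.of_map_of_injective (f := algebraMap F (AlgebraicClosure K)) _ (algebraMap F (AlgebraicClosure K)).injective
    exact hε
  let f : (F ≃ₐ[K] F) →* (ZMod p)ˣ := hεFp.autToPow K
  have hf : ∀ g, f g = 1 → g εF = εF := by
    intro g hg
    have h1 := hεFp.autToPow_spec K g
    have h2 : (hεFp.autToPow K g) = 1 := hg
    rw [h2, Units.val_one, ZMod.val_one, pow_one] at h1
    exact h1.symm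
  have hfA : ∀ g, f g = 1 → ∀ σ : AlgebraicClosure K ≃ₐ[K] AlgebraicClosure K, (∀ x : F, σ (x : AlgebraicClosure K) = ((g x : F) : AlgebraicClosure K)) →
      σ ε = ε := by
    intro g hg σ hσ
    have h1 := hσ εF
    rw [hf g hg] at h1
    exact h1
  have hcomm : ∀ g h : F ≃ₐ[K] F, g * h = h * g := by
    have hcyc : IsCyclic (ZMod p)ˣ := inferInstance
    refine (MonoidHom.isMulCommutative_of_isCyclic_of_ker_le_center f ?_).is_comm.comm
    intro g hg
    rw [MonoidHom.mem_ker] at hg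
    rw [Subgroup.mem_center_iff]
    intro h
    obtain ⟨σ, hσ⟩ := hlift g
    obtain ⟨τ, hτ⟩ := hlift h
    have hσε := hfA g hg σ hσ
    obtain ⟨j, hj⟩ := hfixs σ hσε
    obtain ⟨n, i, c, hc, h1, h2⟩ := hact τ
    have hσc := hfixK σ hσε c hc
    apply hext
    · apply Subtype.ext
      show ((h (g εF) : F) : AlgebraicClosure K) = ((g (h εF) : F) : AlgebraicClosure K)
      rw [← hτ, ← hσ, ← hσ, ← hτ]
      show τ (σ ε) = σ (τ ε)
      rw [hσε, h1, map_pow, hσε]
    · apply Subtype.ext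
      show ((h (g sF) : F) : AlgebraicClosure K) = ((g (h sF) : F) : AlgebraicClosure K)
      rw [← hτ, ← hσ, ← hσ, ← hτ]
      show τ (σ s₀) = σ (τ s₀)
      rw [hj, h2, map_mul, map_mul, map_mul, map_pow, map_pow, map_pow, h1, h2, hσc, hj, hσε]
      ring
  let _ : CommGroup (F ≃ₐ[K] F) := { (inferInstance : Group (F ≃ₐ[K] F)) with mul_comm := hcomm }
  -- exponent p on ker f
  have hexp : ∀ g : F ≃ₐ[K] F, f g = 1 → g ^ p = 1 := by
    intro g hg
    obtain ⟨σ, hσ⟩ := hlift g
    have hσε := hfA g hg σ hσ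
    obtain ⟨j, hj⟩ := hfixs σ hσε
    have h1 : ∀ n : ℕ, ((g ^ n) εF : AlgebraicClosure K) = ε ∧ (((g ^ n) sF : F) : AlgebraicClosure K) = (ε ^ j) ^ n * s₀ := by
      intro n
      induction n with
      | zero => exact ⟨rfl, by simp [sF]⟩
      | succ n ih =>
        rw [pow_succ']
        constructor
        · show ((g ((g ^ n) εF) : F) : AlgebraicClosure K) = ε
          rw [← hσ, ih.1, hσε]
        · show ((g ((g ^ n) sF) : F) : AlgebraicClosure K) = _
          rw [← hσ, ih.2, map_mul, map_pow, map_pow, hσε, hj]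
          ring
    apply hext
    · apply Subtype.ext
      exact (h1 p).1
    · apply Subtype.ext
      rw [(h1 p).2, ← pow_mul, mul_comm j p, pow_mul, hε.pow_eq_one, one_pow, one_mul]
      rfl
  have hpow : ∀ g : F ≃ₐ[K] F, f (g ^ (p - 1)) = 1 := by
    intro g
    rw [map_pow]
    exact ZMod.units_pow_card_sub_one_eq_one p _
  -- the element γ
  obtain ⟨σ₀, hσ₀ε, hσ₀s⟩ : ∃ σ : AlgebraicClosure K ≃ₐ[K] AlgebraicClosure K, σ ε = ε ∧ σ s₀ ≠ s₀ := by
    by_contra hcon
    push Not at hcon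
    apply hsK
    have hG : IsGalois K (AlgebraicClosure K) := inferInstance
    rw [← InfiniteGalois.fixedField_fixingSubgroup K₁]
    rw [mem_fixedField_iff]
    intro σ hσ
    exact hcon σ ((IntermediateField.mem_fixingSubgroup_iff K₁ σ).1 hσ ε hεK₁)
  obtain ⟨j₀, hj₀⟩ := hfixs σ₀ hσ₀ε
  let γ : F ≃ₐ[K] F := σ₀.restrictNormal F
  have hγ : ∀ x : F, ((γ x : F) : AlgebraicClosure K) = σ₀ (x : AlgebraicClosure K) := fun x => σ₀.restrictNormal_commutes F x
  have hγε : γ εF = εF := Subtype.ext (by rw [hγ]; exact hσ₀ε)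
  have hfγ : f γ = 1 := by
    have h1 := hεFp.autToPow_spec K γ
    rw [hγε] at h1
    apply Units.ext
    have h2 : εF ^ ((hεFp.autToPow K γ : (ZMod p)ˣ) : ZMod p).val = εF ^ 1 := by rw [h1, pow_one]
    have h3 := hεFp.pow_inj (ZMod.val_lt _) hp.out.one_lt h2
    apply ZMod.val_injective p
    rw [Units.val_one, ZMod.val_one]
    exact h3
  have hγ1 : γ ≠ 1 := by
    intro h
    apply hσ₀s
    have h1 := hγ sF
    rw [h] at h1
    exact h1.symm
  have hordγ : orderOf γ = p := orderOf_eq_prime (hexp γ hfγ) hγ1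
  have hj₀p : ¬ p ∣ j₀ := by
    rintro ⟨t, ht⟩
    apply hσ₀s
    rw [hj₀, ht, pow_mul, hε.pow_eq_one, one_pow, one_mul]
  have hker : ∀ g : F ≃ₐ[K] F, f g = 1 → g ∈ Subgroup.zpowers γ := by
    intro g hg
    obtain ⟨σ, hσ⟩ := hlift g
    have hσε := hfA g hg σ hσ
    obtain ⟨j, hj⟩ := hfixs σ hσε
    -- find t with j₀ t = j mod p
    obtain ⟨t, ht⟩ : ∃ t : ℕ, ((j₀ * t : ℕ) : ZMod p) = (j : ZMod p) := by
      have h0 : (j₀ : ZMod p) ≠ 0 := by
        intro h
        exact hj₀p ((ZMod.natCast_eq_zero_iff _ _).1 h)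
      refine ⟨((j : ZMod p) / j₀).val, ?_⟩
      push_cast
      rw [ZMod.natCast_val, ZMod.cast_id', id, mul_div_cancel₀ _ h0]
    have hmod : ε ^ (j₀ * t) = ε ^ j := by
      rw [ZMod.natCast_eq_natCast_iff] at ht
      rw [← pow_mod_orderOf, ← pow_mod_orderOf ε j, ← hε.eq_orderOf]
      rw [ht]
    have h1 : ∀ n : ℕ, ((γ ^ n) εF : AlgebraicClosure K) = ε ∧ (((γ ^ n) sF : F) : AlgebraicClosure K) = (ε ^ j₀) ^ n * s₀ := by
      intro n
      induction n with
      | zero => exact ⟨rfl, by simp [sF]⟩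
      | succ n ih =>
        rw [pow_succ']
        constructor
        · show ((γ ((γ ^ n) εF) : F) : AlgebraicClosure K) = ε
          rw [hγ, ih.1, hσ₀ε]
        · show ((γ ((γ ^ n) sF) : F) : AlgebraicClosure K) = _
          rw [hγ, ih.2, map_mul, map_pow, map_pow, hσ₀ε, hj₀]
          ring
    refine ⟨t, ?_⟩
    show γ ^ (t : ℤ) = g
    rw [zpow_natCast]
    apply hext
    · apply Subtype.ext
      rw [(h1 t).1, ← hσ]
      exact hσε.symm
    · apply Subtype.ext
      rw [(h1 t).2, ← hσ]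
      show _ = σ s₀
      rw [hj, ← pow_mul, hmod]
  let π : (F ≃ₐ[K] F) →* (F ≃ₐ[K] F) := powMonoidHom (p - 1)
  have hπ : ∀ g, π g = g ^ (p - 1) := fun g => rfl
  have hrange : π.range = Subgroup.zpowers γ := by
    apply le_antisymm
    · rintro _ ⟨g, rfl⟩
      exact hker _ (hpow g)
    · rw [Subgroup.zpowers_le]
      refine ⟨γ⁻¹, ?_⟩
      rw [hπ, inv_pow, inv_eq_iff_mul_eq_one, ← pow_succ, Nat.sub_add_cancel hp.out.one_le]
      exact hexp γ hfγ
  have hindex : π.ker.index = p := by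
    rw [Subgroup.index_ker, hrange, Nat.card_zpowers, hordγ]
  have hnorm : π.ker.Normal := inferInstance
  let N' : IntermediateField K F := fixedField π.ker
  have hN'fix : N'.fixingSubgroup = π.ker := fixingSubgroup_fixedField π.ker
  have hN'rank : finrank K N' = p := by
    have h1 := IntermediateField.finrank_eq_fixingSubgroup_index F N'
    rw [hN'fix, hindex] at h1
    exact h1
  have hN'gal : IsGalois K N' := IsGalois.of_fixedField_normal_subgroup π.ker
  refine ⟨lift N', ?_, ?_, ?_⟩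
  · rw [← hN'rank]
    exact ((liftAlgEquiv N').toLinearEquiv.finrank_eq).symm
  · exact IsGalois.of_algEquiv (liftAlgEquiv N')
  · have hmem : s₀ ∈ lift N' ⊔ K₁ := by
      have hG : IsGalois K (AlgebraicClosure K) := inferInstance
      rw [← InfiniteGalois.fixedField_fixingSubgroup (lift N' ⊔ K₁), mem_fixedField_iff]
      intro σ hσ
      rw [IntermediateField.mem_fixingSubgroup_iff] at hσ
      have hσε : σ ε = ε := hσ ε ((le_sup_right : K₁ ≤ lift N' ⊔ K₁) hεK₁)
      let g : F ≃ₐ[K] F := σ.restrictNormal F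
      have hg : ∀ x : F, ((g x : F) : AlgebraicClosure K) = σ (x : AlgebraicClosure K) := fun x => σ.restrictNormal_commutes F x
      have hgN : g ∈ N'.fixingSubgroup := by
        rw [IntermediateField.mem_fixingSubgroup_iff]
        intro x hx
        apply Subtype.ext
        rw [hg]
        apply hσ
        exact (le_sup_left : lift N' ≤ lift N' ⊔ K₁) ((mem_lift x).2 hx)
      rw [hN'fix, MonoidHom.mem_ker, hπ] at hgN
      have hgε : g εF = εF := Subtype.ext (by rw [hg]; exact hσε)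
      have hfg : f g = 1 := by
        have h1 := hεFp.autToPow_spec K g
        rw [hgε] at h1
        apply Units.ext
        have h2 : εF ^ ((hεFp.autToPow K g : (ZMod p)ˣ) : ZMod p).val = εF ^ 1 := by
          rw [h1, pow_one]
        have h3 := hεFp.pow_inj (ZMod.val_lt _) hp.out.one_lt h2
        apply ZMod.val_injective p
        rw [Units.val_one, ZMod.val_one]
        exact h3
      have hgp := hexp g hfg
      have hg1 : g = 1 := by
        have h4 : g ^ p = g ^ (p - 1) * g := by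
          rw [← pow_succ, Nat.sub_add_cancel hp.out.one_le]
        rw [hgp, hgN, one_mul] at h4
        exact h4.symm
      have h5 := hg sF
      rw [hg1] at h5
      exact h5.symm
    intro s hs
    have h6 : (s / s₀) ^ p = 1 := by
      rw [div_pow, hs, hs₀]
      exact div_self ha0
    obtain ⟨i, -, hi⟩ := hε.eq_pow_of_pow_eq_one h6
    have h7 : s = ε ^ i * s₀ := by
      rw [hi]
      field_simp
    rw [h7]
    exact mul_mem (pow_mem ((le_sup_right : K₁ ≤ lift N' ⊔ K₁) hεK₁) i) hmem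

end Pool.Agent.Helper32.REK
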